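import Mathlib
import Pool.Agent.Results.MP_35d543_nt.CofactorCriterion
import Pool.Agent.Y165.BC.Blocks
import Pool.Agent.Y576.BC.BLK
import Pool.Agent.Y390.BC.WGTm
import Pool.Agent.Y165.BC.Many

set_option autoImplicit false

/-!
# Composite `n` with `f(n) = n / P(n)`: almost all `n` with `n / P(n) ≤ exp (√(log n) / 10)`

For every `m ≥ 2` the equality `f(m p) = m p / P(m p)` holds for all primes `m < p ≤ x` with at most
`36 m ^ 5 x ^ (1 - 1 / (5 log (36 m ^ 2)))` exceptions; hence it holds for almost all composite `n`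
with `n / P(n) ≤ exp (√(log n) / 10)`, and there are at least `x / (320 √(log x))` composite `n ≤ x`
with this equality (the products of two primes are only `O(x log log x / log x)`). The functions `f` and `P` are those of the starting file
`CofactorCriterion`, and its criterion is used. With helper576 (a block of digits forces a carry with
proportion at least `3 / 8`) and helper390 (generating function of the number of carries).
-/

open Finset

namespace Pool.Agent.Results.MP_35d543_nt.AlmostAllPrimes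

open Pool.Agent.Y165.BC

/-- `f(n)`: the least value of `gcd(n, C(n,k))` over `2 ≤ k ≤ n/2`. -/
noncomputable def f (n : ℕ) : ℕ :=
  sInf {g : ℕ | ∃ k : ℕ, 2 ≤ k ∧ 2 * k ≤ n ∧ g = Nat.gcd n (n.choose k)}

/-- `P(n)`: the largest prime factor of `n`. -/
def P (n : ℕ) : ℕ := n.primeFactors.sup id

theorem good_of_le {m t : ℕ} (hm : 2 ≤ m) (j : ℕ)
    (h : ∀ q ∈ m.primeFactors, m.factorization q ≤ ((m * t).choose (j * t)).factorization q) :
    m ∣ (m * t).choose (j * t) := by
  rcases Nat.eq_zero_or_pos ((m * t).choose (j * t)) with h0 | h0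
  · rw [h0]; exact dvd_zero m
  rw [← Nat.factorization_prime_le_iff_dvd (by omega) h0.ne']
  intro q hq
  by_cases hqm : q ∣ m
  · exact h q (Nat.mem_primeFactors.2 ⟨hq, hqm, by omega⟩)
  · rw [Nat.factorization_eq_zero_of_not_dvd hqm]
    exact Nat.zero_le _

/-- the explicit bound -/
theorem explicit {m : ℕ} (hm : 2 ≤ m) {x : ℕ} (hx : 1 ≤ x) (T : Finset ℕ)
    (hT : ∀ p ∈ T, p ≤ x ∧ p.Prime ∧ m < p ∧ f (m * p) ≠ m * p / P (m * p)) :
    (T.card : ℝ) ≤ 36 * (m : ℝ) ^ 5 *
      (x : ℝ) ^ (1 - 1 / (5 * Real.log (36 * (m : ℝ) ^ 2))) := by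
  classical
  set Y : ℝ := (x : ℝ) ^ (1 - 1 / (5 * Real.log (36 * (m : ℝ) ^ 2))) with hY
  have hx0 : (0 : ℝ) < x := by exact_mod_cast hx
  have hx1 : (1 : ℝ) ≤ x := by exact_mod_cast hx
  have hm0 : (0 : ℝ) < m := by exact_mod_cast (by omega : 0 < m)
  have hY0 : 0 ≤ Y := by positivity
  set F : ℕ × ℕ → Finset ℕ := fun w => T.filter fun t =>
    ((m * t).choose (w.2 * t)).factorization w.1 < m.factorization w.1 with hF
  have hsub : T ⊆ (m.primeFactors ×ˢ Finset.Ico 1 m).biUnion F := by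
    intro p hp
    obtain ⟨h1, h2, h3, h4⟩ := hT p hp
    rw [mem_biUnion]
    by_contra hcon
    push Not at hcon
    apply h4
    have hgood : ∀ j, 1 ≤ j → j < m → m ∣ (m * p).choose (j * p) := by
      intro j hj1 hj
      refine good_of_le hm j fun q hq => ?_
      by_contra h5
      rw [not_le] at h5
      exact hcon (q, j) (mem_product.2 ⟨hq, Finset.mem_Ico.2 ⟨hj1, hj⟩⟩) (mem_filter.2 ⟨hp, h5⟩)
    have h5 := (CofactorCriterion.criterion hm h2 h3).2 hgood
    have h6 := CofactorCriterion.div_P (m := m) (p := p) (by omega) h2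
      (fun q _ hq => (Nat.le_of_dvd (by omega) hq).trans h3.le)
    exact h5.trans h6.symm
  have h1 : (T.card : ℝ) ≤ ∑ w ∈ m.primeFactors ×ˢ Finset.Ico 1 m, ((F w).card : ℝ) := by
    exact_mod_cast (card_le_card hsub).trans card_biUnion_le
  have h2 : ∀ w ∈ m.primeFactors ×ˢ Finset.Ico 1 m, ((F w).card : ℝ) ≤ 36 * (m : ℝ) ^ 3 * Y := by
    rintro ⟨q, j⟩ hw
    rw [mem_product, Finset.mem_Ico] at hw
    obtain ⟨hq', hj1, hj⟩ := hw
    have hq := Nat.prime_of_mem_primeFactors hq'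
    have hqm : q ≤ m := Nat.le_of_dvd (by omega) (Nat.dvd_of_mem_primeFactors hq')
    simp only at hj1 hj
    set L : ℕ := Nat.clog q (36 * m) with hL
    have hL0 : 0 < L := Nat.clog_pos hq.one_lt (by omega)
    have hR1 : 36 * m ≤ q ^ L := Nat.le_pow_clog hq.one_lt _
    have hR2 : q ^ L ≤ 36 * m ^ 2 := by
      have h3 : q ^ L.pred < 36 * m := Nat.pow_pred_clog_lt_self hq.one_lt (by omega)
      calc q ^ L = q ^ (L.pred + 1) := by
            congr 1
            exact (Nat.succ_pred_eq_of_pos hL0).symm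
        _ = q ^ L.pred * q := pow_succ _ _
        _ ≤ 36 * m * m := Nat.mul_le_mul h3.le hqm
        _ = 36 * m ^ 2 := by ring
    have h3 := few_bad (Pool.Agent.Y390.BC.t_WGT Pool.Agent.Y576.BC.t_BLK)
      (a := m.factorization q) hq hL0 hj1 hj hR1 x hx (F (q, j))
      (fun t ht => ⟨(hT t (mem_filter.1 ht).1).1, (mem_filter.1 ht).2⟩)
    have hR2' : ((q ^ L : ℕ) : ℝ) ≤ 36 * (m : ℝ) ^ 2 := by exact_mod_cast hR2
    have hR1' : (1 : ℝ) < ((q ^ L : ℕ) : ℝ) := by
      exact_mod_cast (by omega : 1 < q ^ L)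
    have h4 : (2 : ℝ) ^ m.factorization q ≤ m := by
      have h5 : q ^ m.factorization q ≤ m := Nat.ordProj_le q (by omega)
      have h6 : 2 ^ m.factorization q ≤ q ^ m.factorization q := Nat.pow_le_pow_left hq.two_le _
      exact_mod_cast h6.trans h5
    have h5 : (x : ℝ) ^ (1 - 1 / (5 * Real.log ((q ^ L : ℕ) : ℝ))) ≤ Y := by
      refine Real.rpow_le_rpow_of_exponent_le hx1 ?_
      have h6 : 0 < Real.log ((q ^ L : ℕ) : ℝ) := Real.log_pos hR1'
      have h7 : Real.log ((q ^ L : ℕ) : ℝ) ≤ Real.log (36 * (m : ℝ) ^ 2) :=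
        Real.log_le_log (by linarith) hR2'
      have h8 : 1 / (5 * Real.log (36 * (m : ℝ) ^ 2)) ≤ 1 / (5 * Real.log ((q ^ L : ℕ) : ℝ)) :=
        one_div_le_one_div_of_le (by positivity) (by linarith)
      linarith
    calc ((F (q, j)).card : ℝ) ≤ 2 ^ m.factorization q * ((q ^ L : ℕ) : ℝ) *
          (x : ℝ) ^ (1 - 1 / (5 * Real.log ((q ^ L : ℕ) : ℝ))) := h3
      _ ≤ m * (36 * (m : ℝ) ^ 2) * Y := by gcongr
      _ = 36 * (m : ℝ) ^ 3 * Y := by ring
  have h3 : ((m.primeFactors ×ˢ Finset.Ico 1 m).card : ℝ) ≤ (m : ℝ) ^ 2 := by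
    have h4 : m.primeFactors ⊆ Finset.Ioc 0 m := by
      intro q hq
      rw [mem_Ioc]
      exact ⟨(Nat.prime_of_mem_primeFactors hq).pos,
        Nat.le_of_dvd (by omega) (Nat.dvd_of_mem_primeFactors hq)⟩
    have h5 := card_le_card h4
    rw [Nat.card_Ioc] at h5
    have h6 : (m.primeFactors ×ˢ Finset.Ico 1 m).card ≤ m ^ 2 := by
      rw [card_product, Nat.card_Ico, pow_two]
      exact Nat.mul_le_mul h5 (Nat.sub_le m 1)
    exact_mod_cast h6
  calc (T.card : ℝ) ≤ ∑ w ∈ m.primeFactors ×ˢ Finset.Ico 1 m, ((F w).card : ℝ) := h1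
    _ ≤ ∑ _w ∈ m.primeFactors ×ˢ Finset.Ico 1 m, 36 * (m : ℝ) ^ 3 * Y := Finset.sum_le_sum h2
    _ = ((m.primeFactors ×ˢ Finset.Ico 1 m).card : ℝ) * (36 * (m : ℝ) ^ 3 * Y) := by
      rw [sum_const, nsmul_eq_mul]
    _ ≤ (m : ℝ) ^ 2 * (36 * (m : ℝ) ^ 3 * Y) := by gcongr
    _ = 36 * (m : ℝ) ^ 5 * Y := by ring

/-- the bound for one `m` -/
theorem one_bound {x m : ℕ} {w : ℝ} (hx : 2 ≤ x) (hw2 : w * w = Real.log x) (hbig : 72 ≤ w)
    (hm : 2 ≤ m) (hm4 : (m : ℝ) ≤ Real.exp (w / 10)) :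
    36 * (m : ℝ) ^ 5 * (x : ℝ) ^ (1 - 1 / (5 * Real.log (36 * (m : ℝ) ^ 2))) ≤
      36 * Real.exp (w / 2) * (x * Real.exp (-(4 * w / 5))) := by
  have hx0 : (0 : ℝ) < x := by exact_mod_cast (by omega : 0 < x)
  have hw0 : 0 < w := by linarith
  have hm1 : (1 : ℝ) < m := by exact_mod_cast (by omega : 1 < m)
  have hm0 : (0 : ℝ) < m := by linarith
  have h36 : Real.log 36 ≤ w / 20 := by
    have h1 : Real.log 36 ≤ 3.6 := by
      rw [Real.log_le_iff_le_exp (by norm_num)]
      have h2 : (2.7182818283 : ℝ) < Real.exp 1 := Real.exp_one_gt_d9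
      have h3 : Real.exp 3.6 = Real.exp 1 ^ 3 * Real.exp 0.6 := by
        rw [← Real.exp_nat_mul, ← Real.exp_add]
        norm_num
      have h4 : (1.82 : ℝ) ≤ Real.exp 0.6 := by
        have h5 := Real.quadratic_le_exp_of_nonneg (x := 0.6) (by norm_num)
        have h6 := Real.sum_le_exp_of_nonneg (x := 0.6) (by norm_num) 5
        simp only [Finset.sum_range_succ, Finset.sum_range_zero, Nat.factorial] at h6
        norm_num at h6
        norm_num
        linarith
      have h5 : (20.08 : ℝ) ≤ Real.exp 1 ^ 3 := by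
        calc (20.08 : ℝ) ≤ 2.7182818283 ^ 3 := by norm_num
          _ ≤ Real.exp 1 ^ 3 := by gcongr
      rw [h3]
      calc (36 : ℝ) ≤ 20.08 * 1.82 := by norm_num
        _ ≤ Real.exp 1 ^ 3 * Real.exp 0.6 := by gcongr
    linarith
  have hlm : Real.log m ≤ w / 10 := by
    rw [Real.log_le_iff_le_exp hm0]
    exact hm4
  have hlpos : 0 < Real.log (36 * (m : ℝ) ^ 2) := Real.log_pos (by nlinarith)
  have h3 : 5 * Real.log (36 * (m : ℝ) ^ 2) ≤ 5 * w / 4 := by
    rw [Real.log_mul (by norm_num) (by positivity), Real.log_pow]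
    push_cast
    linarith
  have h4 : (x : ℝ) ^ (1 - 1 / (5 * Real.log (36 * (m : ℝ) ^ 2))) ≤
      x * Real.exp (-(4 * w / 5)) := by
    rw [sub_eq_add_neg, Real.rpow_add hx0, Real.rpow_one]
    refine mul_le_mul_of_nonneg_left ?_ hx0.le
    rw [Real.rpow_def_of_pos hx0]
    apply Real.exp_le_exp.2
    rw [← hw2, mul_neg]
    apply neg_le_neg
    calc 4 * w / 5 = w * w * (1 / (5 * w / 4)) := by field_simp
      _ ≤ w * w * (1 / (5 * Real.log (36 * (m : ℝ) ^ 2))) := by
        refine mul_le_mul_of_nonneg_left ?_ (by positivity)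
        exact one_div_le_one_div_of_le (by positivity) h3
  have h5 : (m : ℝ) ^ 5 ≤ Real.exp (w / 2) := by
    calc (m : ℝ) ^ 5 ≤ Real.exp (w / 10) ^ 5 := by gcongr
      _ = Real.exp (w / 2) := by
        rw [← Real.exp_nat_mul]
        congr 1
        push_cast
        ring
  gcongr

open Classical in
/-- many composite solutions -/
theorem many : ∃ x₀ : ℕ, ∀ x : ℕ, x₀ ≤ x → (x : ℝ) / (320 * √(Real.log x)) ≤
    ({n : ℕ | n ≤ x ∧ 2 ≤ n ∧ ¬ n.Prime ∧ f n = n / P n}.ncard : ℝ) := by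
  obtain ⟨x₀, hx₀⟩ := exists_nat_ge (Real.exp (576000 * 576000))
  refine ⟨max x₀ 2, fun x hx => ?_⟩
  have hx2 : 2 ≤ x := (le_max_right _ _).trans hx
  have hx0 : (0 : ℝ) < x := by exact_mod_cast (by omega : 0 < x)
  have hxe : Real.exp (576000 * 576000) ≤ x :=
    hx₀.trans (by exact_mod_cast (le_max_left _ _).trans hx)
  set w : ℝ := √(Real.log x) with hw
  have hΛ : 576000 * 576000 ≤ Real.log x := by
    rw [Real.le_log_iff_exp_le hx0]
    exact hxe
  have hw2 : w * w = Real.log x := Real.mul_self_sqrt (by linarith)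
  have hwbig : 576000 ≤ w := by
    rw [hw]
    exact Real.le_sqrt_of_sq_le (by rw [pow_two]; exact hΛ)
  have hw72 : 72 ≤ w := by linarith
  have hw0 : 0 < w := by linarith
  set M : ℕ := ⌊Real.exp (w / 10)⌋₊ with hM
  have hMle : (M : ℝ) ≤ Real.exp (w / 10) := Nat.floor_le (by positivity)
  have hMlt : Real.exp (w / 10) < M + 1 := Nat.lt_floor_add_one _
  have hM1 : 1 ≤ M := by
    rw [hM, Nat.one_le_floor_iff]
    exact Real.one_le_exp (by positivity)
  set I : Finset ℕ := Finset.Ico 2 (M + 1) with hI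
  have hImem : ∀ m ∈ I, 2 ≤ m ∧ (m : ℝ) ≤ Real.exp (w / 10) := by
    intro m hm
    rw [hI, Finset.mem_Ico] at hm
    refine ⟨hm.1, le_trans ?_ hMle⟩
    exact_mod_cast (by omega : m ≤ M)
  set G : ℕ → Finset ℕ := fun m =>
    (Finset.Ioc 0 x).filter fun p => p.Prime ∧ m < p ∧ m * p ≤ x with hG
  set Good : ℕ → Finset ℕ := fun m => (G m).filter fun p => f (m * p) = m * p / P (m * p) with hGood
  set Bad : ℕ → Finset ℕ := fun m => (G m).filter fun p => ¬ f (m * p) = m * p / P (m * p) with hBad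
  have hcard : ∀ m, ((G m).card : ℝ) = (Good m).card + (Bad m).card := by
    intro m
    have := Finset.card_filter_add_card_filter_not (s := G m)
      (fun p => f (m * p) = m * p / P (m * p))
    exact_mod_cast this.symm
  -- the solutions
  set S : Set ℕ := {n : ℕ | n ≤ x ∧ 2 ≤ n ∧ ¬ n.Prime ∧ f n = n / P n} with hS
  have hSfin : S.Finite := (Set.finite_Iic x).subset fun n hn => hn.1
  have h1 : ∑ m ∈ I, ((Good m).card : ℝ) ≤ S.ncard := by
    have h2 : (I.sigma Good).card ≤ S.ncard := by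
      rw [Set.ncard_eq_toFinset_card S hSfin]
      refine Finset.card_le_card_of_injOn (fun u => u.1 * u.2) ?_ ?_
      · rintro ⟨m, p⟩ hu
        rw [Finset.mem_coe, mem_sigma] at hu
        obtain ⟨hm, hp⟩ := hu
        simp only [hGood, hG, mem_filter, mem_Ioc] at hm hp
        obtain ⟨⟨⟨hp0, -⟩, hpp, hmp, hmpx⟩, hf⟩ := hp
        have hm2 := (hImem m hm).1
        rw [Finset.mem_coe, Set.Finite.mem_toFinset]
        refine ⟨hmpx, ?_, ?_, hf⟩
        · show 2 ≤ m * p
          nlinarith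
        · show ¬ (m * p).Prime
          have hm3 : m ≠ 1 := by omega
          exact Nat.not_prime_mul hm3 hpp.ne_one
      · rintro ⟨m, p⟩ hu ⟨m', p'⟩ hu' h
        rw [Finset.mem_coe, mem_sigma] at hu hu'
        obtain ⟨hm, hp⟩ := hu
        obtain ⟨hm', hp'⟩ := hu'
        simp only [hGood, hG, mem_filter, mem_Ioc] at hm hp hm' hp' h
        obtain ⟨⟨-, hpp, hmp, -⟩, -⟩ := hp
        obtain ⟨⟨-, hpp', hmp', -⟩, -⟩ := hp'
        have hm2 := (hImem m hm).1
        have hm2' := (hImem m' hm').1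
        have e1 := CofactorCriterion.P_mul (m := m) (p := p) (by omega) hpp
          (fun q _ hq => (Nat.le_of_dvd (by omega) hq).trans hmp.le)
        have e2 := CofactorCriterion.P_mul (m := m') (p := p') (by omega) hpp'
          (fun q _ hq => (Nat.le_of_dvd (by omega) hq).trans hmp'.le)
        rw [h, e2] at e1
        subst e1
        have := Nat.eq_of_mul_eq_mul_right hpp.pos h
        subst this
        rfl
    rw [card_sigma] at h2
    exact_mod_cast h2
  have h2 : ∀ m ∈ I, (x : ℝ) / (8 * (w * w)) * (1 / m) -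
      36 * Real.exp (w / 2) * (x * Real.exp (-(4 * w / 5))) ≤ (Good m).card := by
    intro m hm
    obtain ⟨hm2, hm4⟩ := hImem m hm
    have hm0 : (0 : ℝ) < m := by exact_mod_cast (by omega : 0 < m)
    have h3 := primes_many hx2 hw2 hw72 hm2 hm4
    have h4 : ((Bad m).card : ℝ) ≤ 36 * Real.exp (w / 2) * (x * Real.exp (-(4 * w / 5))) := by
      refine (explicit hm2 (by omega : 1 ≤ x) (Bad m) ?_).trans (one_bound hx2 hw2 hw72 hm2 hm4)
      intro p hp
      simp only [hBad, hG, mem_filter, mem_Ioc] at hp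
      exact ⟨hp.1.1.2, hp.1.2.1, hp.1.2.2.1, hp.2⟩
    have h5 : (x : ℝ) / (8 * m * (w * w)) = (x : ℝ) / (8 * (w * w)) * (1 / m) := by
      field_simp
    rw [h5] at h3
    have h6 := hcard m
    simp only [hG] at h6
    linarith
  have h3 := (Finset.sum_le_sum h2).trans h1
  rw [Finset.sum_sub_distrib, ← Finset.mul_sum, Finset.sum_const, nsmul_eq_mul] at h3
  have h4 : w / 10 - Real.log 2 ≤ ∑ m ∈ I, 1 / (m : ℝ) := by
    rw [hI, Finset.sum_Ico_eq_sum_range]
    have h5 := harm (M + 1 - 2)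
    have h6 : ∑ i ∈ range (M + 1 - 2), 1 / (((2 + i : ℕ)) : ℝ) =
        ∑ i ∈ range (M + 1 - 2), 1 / ((i : ℝ) + 2) := by
      refine Finset.sum_congr rfl fun i _ => ?_
      push_cast
      rw [add_comm]
    rw [h6]
    refine le_trans ?_ h5
    have h7 : (((M + 1 - 2 : ℕ)) : ℝ) + 2 = M + 1 := by
      have : M + 1 - 2 + 2 = M + 1 := by omega
      exact_mod_cast this
    rw [h7]
    have h8 : w / 10 ≤ Real.log (M + 1) := by
      rw [Real.le_log_iff_exp_le (by positivity)]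
      exact hMlt.le
    linarith
  have h5 : (I.card : ℝ) ≤ Real.exp (w / 10) := by
    rw [hI, Nat.card_Ico]
    have : ((M + 1 - 2 : ℕ) : ℝ) ≤ M := by exact_mod_cast (by omega : M + 1 - 2 ≤ M)
    linarith
  have hlog2 : Real.log 2 ≤ 0.7 := by linarith [Real.log_two_lt_d9]
  have hpos : 0 ≤ (x : ℝ) / (8 * (w * w)) := by positivity
  have h6 : (x : ℝ) / (160 * w) ≤ (x : ℝ) / (8 * (w * w)) * ∑ m ∈ I, 1 / (m : ℝ) := by
    have h7 : w / 20 ≤ ∑ m ∈ I, 1 / (m : ℝ) := by linarith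
    calc (x : ℝ) / (160 * w) = (x : ℝ) / (8 * (w * w)) * (w / 20) := by
          field_simp
          norm_num
      _ ≤ _ := mul_le_mul_of_nonneg_left h7 hpos
  have h7 : (I.card : ℝ) * (36 * Real.exp (w / 2) * (x * Real.exp (-(4 * w / 5)))) ≤
      (x : ℝ) / (320 * w) := by
    have h8 : Real.exp (w / 10) * Real.exp (w / 2) * Real.exp (-(4 * w / 5)) =
        Real.exp (-(w / 5)) := by
      rw [← Real.exp_add, ← Real.exp_add]
      congr 1
      ring
    have h9 : 11520 * w ≤ Real.exp (w / 5) := by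
      have := Real.quadratic_le_exp_of_nonneg (x := w / 5) (by positivity)
      nlinarith
    have h10 : Real.exp (-(w / 5)) ≤ 1 / (11520 * w) := by
      rw [Real.exp_neg, inv_eq_one_div]
      exact one_div_le_one_div_of_le (by positivity) h9
    calc (I.card : ℝ) * (36 * Real.exp (w / 2) * (x * Real.exp (-(4 * w / 5))))
        ≤ Real.exp (w / 10) * (36 * Real.exp (w / 2) * (x * Real.exp (-(4 * w / 5)))) := by gcongr
      _ = 36 * x * Real.exp (-(w / 5)) := by rw [← h8]; ring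
      _ ≤ 36 * x * (1 / (11520 * w)) := by gcongr
      _ = (x : ℝ) / (320 * w) := by
        field_simp
        norm_num
  have h8 : (x : ℝ) / (160 * w) = (x : ℝ) / (320 * w) + (x : ℝ) / (320 * w) := by
    field_simp
    norm_num
  linarith

/-- **(1)** For every `m ≥ 2` and `x ≥ 1` the equality `f(m p) = m p / P(m p)` holds for all primes
`m < p ≤ x` with at most `36 m ^ 5 x ^ (1 - 1 / (5 log (36 m ^ 2)))` exceptions.

**(2)** All but `O(x exp (-√(log x) / 5))` of the integers `n ≤ x` of the form `n = m p`,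
`2 ≤ m ≤ exp (√(log x) / 10)`, `p > m` prime (so `p = P(n)`), satisfy `f(n) = n / P(n)`.

**(3)** For all large `x` there are at least `x / (320 √(log x))` composite `n ≤ x` with
`f(n) = n / P(n)`. -/
theorem result :
    (∀ m x : ℕ, 2 ≤ m → 1 ≤ x →
      ({p : ℕ | p ≤ x ∧ p.Prime ∧ m < p ∧ f (m * p) ≠ m * p / P (m * p)}.ncard : ℝ) ≤
        36 * (m : ℝ) ^ 5 * (x : ℝ) ^ (1 - 1 / (5 * Real.log (36 * (m : ℝ) ^ 2)))) ∧
    (∃ C : ℝ, ∀ x : ℕ, 2 ≤ x →
      ({n : ℕ | n ≤ x ∧ (∃ m p : ℕ, n = m * p ∧ 2 ≤ m ∧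
        (m : ℝ) ≤ Real.exp (√(Real.log x) / 10) ∧ p.Prime ∧ m < p) ∧ f n ≠ n / P n}.ncard : ℝ) ≤
        C * (x * Real.exp (-(√(Real.log x) / 5)))) ∧
    (∃ x₀ : ℕ, ∀ x : ℕ, x₀ ≤ x → (x : ℝ) / (320 * √(Real.log x)) ≤
      ({n : ℕ | n ≤ x ∧ 2 ≤ n ∧ ¬ n.Prime ∧ f n = n / P n}.ncard : ℝ)) := by
  classical
  refine ⟨?_, ?_, many⟩
  · intro m x hm hx
    set A : Set ℕ := {p : ℕ | p ≤ x ∧ p.Prime ∧ m < p ∧ f (m * p) ≠ m * p / P (m * p)} with hA
    have hfin : A.Finite := (Set.finite_Iic x).subset fun p hp => hp.1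
    rw [Set.ncard_eq_toFinset_card A hfin]
    apply explicit hm hx
    intro p hp
    rw [Set.Finite.mem_toFinset] at hp
    exact hp
  · refine ⟨36 * Real.exp 15, fun x hx => ?_⟩
    have hx0 : (0 : ℝ) < x := by exact_mod_cast (by omega : 0 < x)
    have hx1 : (1 : ℝ) < x := by exact_mod_cast (by omega : 1 < x)
    set Λ : ℝ := Real.log x with hΛ
    have hΛ0 : 0 < Λ := Real.log_pos hx1
    set w : ℝ := √Λ with hw
    have hw0 : 0 < w := Real.sqrt_pos.2 hΛ0
    have hw2 : w * w = Λ := Real.mul_self_sqrt hΛ0.le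
    set S : Set ℕ := {n : ℕ | n ≤ x ∧ (∃ m p : ℕ, n = m * p ∧ 2 ≤ m ∧
      (m : ℝ) ≤ Real.exp (w / 10) ∧ p.Prime ∧ m < p) ∧ f n ≠ n / P n} with hS
    have he15 : (1 : ℝ) ≤ Real.exp 15 := Real.one_le_exp (by norm_num)
    rcases lt_or_ge w 72 with hsmall | hbig
    · -- trivial bound
      have h1 : S.ncard ≤ x := by
        have h2 : S ⊆ ((Finset.Ioc 0 x : Finset ℕ) : Set ℕ) := by
          rintro n ⟨h1, ⟨m, p, rfl, h2, -, h4, -⟩, -⟩
          rw [Finset.coe_Ioc, Set.mem_Ioc]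
          exact ⟨Nat.mul_pos (by omega) h4.pos, h1⟩
        have h3 := Set.ncard_le_ncard h2 (Finset.finite_toSet _)
        rw [Set.ncard_coe_finset, Nat.card_Ioc] at h3
        omega
      have h2 : (1 : ℝ) ≤ Real.exp 15 * Real.exp (-(w / 5)) := by
        rw [← Real.exp_add]
        exact Real.one_le_exp (by linarith)
      calc (S.ncard : ℝ) ≤ x := by exact_mod_cast h1
        _ = x * 1 := (mul_one _).symm
        _ ≤ x * (Real.exp 15 * Real.exp (-(w / 5))) := by gcongr
        _ ≤ 36 * (x * (Real.exp 15 * Real.exp (-(w / 5)))) := by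
          have : 0 ≤ x * (Real.exp 15 * Real.exp (-(w / 5))) := by positivity
          linarith
        _ = 36 * Real.exp 15 * (x * Real.exp (-(w / 5))) := by ring
    · -- the bound for one `m`
      have hone : ∀ m : ℕ, 2 ≤ m → (m : ℝ) ≤ Real.exp (w / 10) →
          36 * (m : ℝ) ^ 5 * (x : ℝ) ^ (1 - 1 / (5 * Real.log (36 * (m : ℝ) ^ 2))) ≤
            36 * Real.exp (w / 2) * (x * Real.exp (-(4 * w / 5))) :=
        fun m hm hm4 => one_bound hx hw2 hbig hm hm4
      -- union over `m`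
      set I : Finset ℕ := (Finset.Ioc 0 ⌊Real.exp (w / 10)⌋₊).filter fun m =>
        2 ≤ m ∧ (m : ℝ) ≤ Real.exp (w / 10) with hI
      set T : ℕ → Finset ℕ := fun m => (Finset.Ioc 0 x).filter fun p =>
        p.Prime ∧ m < p ∧ f (m * p) ≠ m * p / P (m * p) with hT
      have hsub : S ⊆ ((I.biUnion fun m => (T m).image fun p => m * p : Finset ℕ) : Set ℕ) := by
        rintro n ⟨h1, ⟨m, p, rfl, h2, h3, h4, h5⟩, h6⟩
        rw [Finset.mem_coe, mem_biUnion]
        refine ⟨m, ?_, ?_⟩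
        · rw [hI, mem_filter, mem_Ioc]
          exact ⟨⟨by omega, Nat.le_floor h3⟩, h2, h3⟩
        · rw [mem_image]
          refine ⟨p, ?_, rfl⟩
          rw [hT, mem_filter, mem_Ioc]
          exact ⟨⟨h4.pos, (Nat.le_mul_of_pos_left p (by omega)).trans h1⟩, h4, h5, h6⟩
      have h1 : (S.ncard : ℝ) ≤ ∑ m ∈ I, ((T m).card : ℝ) := by
        have h2 : S.ncard ≤ (I.biUnion fun m => (T m).image fun p => m * p).card := by
          rw [← Set.ncard_coe_finset]
          exact Set.ncard_le_ncard hsub (Finset.finite_toSet _)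
        have h3 : (I.biUnion fun m => (T m).image fun p => m * p).card ≤ ∑ m ∈ I, (T m).card :=
          card_biUnion_le.trans (Finset.sum_le_sum fun m _ => card_image_le)
        exact_mod_cast h2.trans h3
      have h2 : ∀ m ∈ I, ((T m).card : ℝ) ≤
          36 * Real.exp (w / 2) * (x * Real.exp (-(4 * w / 5))) := by
        intro m hm
        rw [hI, mem_filter] at hm
        refine (explicit hm.2.1 (by omega : 1 ≤ x) (T m) ?_).trans (hone m hm.2.1 hm.2.2)
        intro p hp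
        rw [hT, mem_filter, mem_Ioc] at hp
        exact ⟨hp.1.2, hp.2⟩
      have h3 : (I.card : ℝ) ≤ Real.exp (w / 10) := by
        have h4 : I.card ≤ ⌊Real.exp (w / 10)⌋₊ := by
          refine (card_filter_le _ _).trans ?_
          rw [Nat.card_Ioc]
          omega
        calc (I.card : ℝ) ≤ (⌊Real.exp (w / 10)⌋₊ : ℝ) := by exact_mod_cast h4
          _ ≤ Real.exp (w / 10) := Nat.floor_le (by positivity)
      have h4 : Real.exp (w / 10) * (36 * Real.exp (w / 2) * (x * Real.exp (-(4 * w / 5)))) =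
          36 * (x * Real.exp (-(w / 5))) := by
        have h5 : Real.exp (w / 10) * Real.exp (w / 2) * Real.exp (-(4 * w / 5)) =
            Real.exp (-(w / 5)) := by
          rw [← Real.exp_add, ← Real.exp_add]
          congr 1
          ring
        rw [← h5]
        ring
      calc (S.ncard : ℝ) ≤ ∑ m ∈ I, ((T m).card : ℝ) := h1
        _ ≤ ∑ _m ∈ I, 36 * Real.exp (w / 2) * (x * Real.exp (-(4 * w / 5))) := Finset.sum_le_sum h2
        _ = (I.card : ℝ) * (36 * Real.exp (w / 2) * (x * Real.exp (-(4 * w / 5)))) := by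
          rw [sum_const, nsmul_eq_mul]
        _ ≤ Real.exp (w / 10) * (36 * Real.exp (w / 2) * (x * Real.exp (-(4 * w / 5)))) := by gcongr
        _ = 36 * (x * Real.exp (-(w / 5))) := h4
        _ ≤ 36 * Real.exp 15 * (x * Real.exp (-(w / 5))) := by
          have h5 : 0 ≤ x * Real.exp (-(w / 5)) := by positivity
          nlinarith

end Pool.Agent.Results.MP_35d543_nt.AlmostAllPrimes
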